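import Pool.Agent.QSB.StmtsU
import Pool.Agent.Helper16_QSB.MCX

set_option autoImplicit false

/-!
# Squad QSB, row CNR: the property `NR` of complexifications
-/

namespace Pool.Agent.QSB.H42

open Matrix Finset Pool.Agent.QSX Pool.Agent.QSX.H10 Pool.Agent.QSN Pool.Agent.QSB
open Pool.Agent.QSB.H16C

/-- the basis of the complexification -/
noncomputable def eR {X : Dat} (R : RBas X) (p : R.ι × Bool) :
    Matrix (Fin X.C.m) (Fin X.C.m) ℝ :=
  if p.2 = true then ci X.m (R.e p.1) else cr X.m (R.e p.1)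

theorem eR_t {X : Dat} (R : RBas X) (l : R.ι) : eR R (l, true) = ci X.m (R.e l) := rfl

theorem eR_f {X : Dat} (R : RBas X) (l : R.ι) : eR R (l, false) = cr X.m (R.e l) := rfl

theorem rat_eR {X : Dat} (R : RBas X) (p : R.ι × Bool) (i j : Fin X.C.m) :
    ∃ q : ℚ, eR R p i j = (q : ℝ) := by
  obtain ⟨l, s⟩ := p
  cases s
  · rw [eR_f]
    exact cr_rat _ (R.rat l) i j
  · rw [eR_t]
    exact ci_rat _ (R.rat l) i j

theorem span_eR {X : Dat} (R : RBas X) :
    Submodule.span ℝ (Set.range (eR R)) = X.C.n := by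
  apply le_antisymm
  · rw [Submodule.span_le]
    rintro _ ⟨⟨l, s⟩, rfl⟩
    have hl : R.e l ∈ X.n := by
      rw [← R.span_e]
      exact Submodule.subset_span ⟨l, rfl⟩
    cases s
    · exact ⟨R.e l, hl, 0, X.n.zero_mem, rfl⟩
    · exact ⟨0, X.n.zero_mem, R.e l, hl, rfl⟩
  · rintro _ ⟨x, hx, y, hy, rfl⟩
    rw [← R.span_e] at hx hy
    rw [blk_cx]
    refine Submodule.add_mem _ (span_map' _ ?_ hx) (span_map' _ ?_ hy)
    · rintro _ ⟨l, rfl⟩
      exact ⟨(l, false), rfl⟩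
    · rintro _ ⟨l, rfl⟩
      exact ⟨(l, true), rfl⟩

theorem lin_eR {X : Dat} (R : RBas X) : LinearIndependent ℝ (eR R) := by
  rw [Fintype.linearIndependent_iff]
  intro g hg
  have h1 : ∑ p, g p • eR R p =
      cr X.m (∑ l, g (l, false) • R.e l) + ci X.m (∑ l, g (l, true) • R.e l) := by
    rw [Fintype.sum_prod_type, map_sum, map_sum, ← Finset.sum_add_distrib]
    refine Finset.sum_congr rfl fun l _ => ?_
    rw [Fintype.sum_bool, eR_t, eR_f, map_smul, map_smul, add_comm]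
    rfl
  rw [h1] at hg
  obtain ⟨h2, h3⟩ := cri_zero hg
  have h4 := Fintype.linearIndependent_iff.1 R.lin _ h2
  have h5 := Fintype.linearIndependent_iff.1 R.lin _ h3
  rintro ⟨l, s⟩
  cases s
  · exact h4 l
  · exact h5 l

theorem wt_eR {X : Dat} (R : RBas X) (p : R.ι × Bool) (c : X.C.b) :
    diagonal (c : Fin X.C.m → ℝ) * eR R p - eR R p * diagonal (c : Fin X.C.m → ℝ) =
      Ph X (R.rt p.1) c • eR R p := by
  obtain ⟨d, rfl⟩ := (PE X).surjective c
  rw [Ph_PE]
  have h1 : diagonal ((PE X d : X.C.b) : Fin X.C.m → ℝ) =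
    cr X.m (diagonal (d : Fin X.m → ℝ)) := (cr_diag _).symm
  obtain ⟨l, s⟩ := p
  cases s
  · have h2 := cr_cr (diagonal (d : Fin X.m → ℝ)) (R.e l)
    rw [R.wt l d, map_smul] at h2
    rw [h1]
    exact h2
  · have h2 := cr_ci (diagonal (d : Fin X.m → ℝ)) (R.e l)
    rw [R.wt l d, map_smul] at h2
    rw [h1]
    exact h2

theorem bil_PE (X : Dat) (a d : X.b) : bil X.C (PE X a) (PE X d) = 2 * bil X a d := by
  rw [bil_apply, bil_apply, PE_val, PE_val]
  have h1 : ∀ f : Fin (X.m * 2) → ℝ, ∑ i, f i = ∑ i : Fin X.m, ∑ j : Fin 2, f (finProdFinEquiv (i, j)) := by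
    intro f
    rw [← Fintype.sum_prod_type (f := fun p : Fin X.m × Fin 2 => f (finProdFinEquiv p))]
    exact (Equiv.sum_comp finProdFinEquiv f).symm
  have h2 := h1 fun i => cst 2 X.m a.1 i * cst 2 X.m d.1 i
  refine h2.trans ?_
  rw [Finset.mul_sum]
  refine Finset.sum_congr rfl fun i _ => ?_
  rw [Fin.sum_univ_two, cst_apply, cst_apply, cst_apply, cst_apply]
  ring

theorem ip_Ph (X : Dat) (μ ν : X.b →ₗ[ℝ] ℝ) : ip X.C (Ph X μ) (Ph X ν) = 2⁻¹ * ip X μ ν := by
  have h := ip_trans (X := X) (Z := X.C) (PE X).symm.toLinearMap (PE X).toLinearMap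
    (r := 2) (by norm_num) (by
      intro a c
      obtain ⟨d, rfl⟩ := (PE X).surjective c
      show bil X.C (PE X a) (PE X d) = 2 * bil X a ((PE X).symm (PE X d))
      rw [LinearEquiv.symm_apply_apply]
      exact bil_PE X a d) μ (Ph X ν)
  have h1 : Ph X ν (PE X (tv X μ)) = ν (tv X μ) := Ph_PE X ν _
  have h2 : ip X.C (Ph X μ) (Ph X ν) = 2⁻¹ * Ph X ν (PE X (tv X μ)) := h
  rw [h2, h1, ip_eq, ip_comm]

/-- **Row CNR.** -/
theorem cnr : CnrStmt := by
  intro X R hR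
  refine ⟨{
    ι := R.ι × Bool
    fin := inferInstance
    dec := inferInstance
    e := eR R
    rat := rat_eR R
    span_e := span_eR R
    lin := lin_eR R
    rt := fun p => Ph X (R.rt p.1)
    wt := wt_eR R
    sep := ?_ }, ?_⟩
  · intro a ha
    have h1 : (PE X).symm a = 0 := R.sep _ fun l => ha (l, false)
    exact (LinearEquiv.map_eq_zero_iff (PE X).symm).1 h1
  · intro l
    obtain ⟨l', h1, h2⟩ := hR l.1
    refine Or.inl ⟨(l', false), Ph_np.2 h1, ?_⟩
    show ip X.C (Ph X (R.rt l.1)) (Ph X (R.rt l')) ≠ 0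
    rw [ip_Ph]
    exact mul_ne_zero (by norm_num) h2

end Pool.Agent.QSB.H42
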