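import Pool.Agent.QSB.StmtsX4

set_option autoImplicit false

namespace Pool.Agent.QSB.H42

open Matrix Finset Pool.Agent.QSX Pool.Agent.QSB

/-- THS: the field `thr` of `RQ` for symmetric spaces -/
theorem ths (gwb : GwbStmt) (int : IntStmt) (cry : CryStmt) : ThsStmt := by
  intro Y hS ρ β γ hρ h2ρ hβ hγ nβρ nγρ nγβ nβγρ hρβ hβγ hρβγ
  obtain ⟨S⟩ := hS
  obtain ⟨g1, g2, g3, g4, g5⟩ := gwb Y S
  by_cases b1 : IsRt Y ((2 : ℝ) • ρ + β)
  · exact Or.inl b1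
  by_cases b2 : IsRt Y ((2 : ℝ) • ρ + γ)
  · exact Or.inr (Or.inl b2)
  by_cases b3 : IsRt Y ((2 : ℝ) • ρ + (β + γ))
  · exact Or.inr (Or.inr (Or.inl b3))
  refine Or.inr (Or.inr (Or.inr ?_))
  intro u w hu hw
  obtain ⟨x, hx⟩ := hρ
  obtain ⟨w₂, hw₂⟩ := h2ρ
  obtain ⟨gx, px⟩ := g1 _ _ hx
  obtain ⟨gw₂, pw₂⟩ := g1 _ _ hw₂
  have hne : ∀ μ : Y.b →ₗ[ℝ] ℝ, 0 < μ S.a₀ → μ ≠ 0 := by
    intro μ h h0
    rw [h0, LinearMap.zero_apply] at h
    exact lt_irrefl _ h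
  have hρ0 : ρ ≠ 0 := hne _ px
  obtain ⟨R, hR⟩ : ∃ R, R = ip Y ρ ρ := ⟨_, rfl⟩
  have hR0 : 0 < R := by
    rw [hR]
    exact ip_self_pos hρ0
  have key : ∀ σ : Y.b →ₗ[ℝ] ℝ, IsRt Y σ → NPr σ ρ → IsRt Y (ρ + σ) →
      ¬ IsRt Y ((2 : ℝ) • ρ + σ) → ip Y σ ρ = 0 ∧ ip Y σ σ = R := by
    intro σ hσ nσ hρσ hno
    obtain ⟨z, hz⟩ := hσ
    obtain ⟨v, hv⟩ := hρσ
    obtain ⟨gz, pz⟩ := g1 _ _ hz
    obtain ⟨gv, pv⟩ := g1 _ _ hv
    obtain ⟨⟨n, hn⟩, hneg, -⟩ := int Y S ((2 : ℝ) • ρ) σ w₂ z gw₂ (hne _ pw₂) gz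
    rw [ip_smul_right, ip_smul_left, ip_smul_right, ← hR] at hn
    have hn' : ip Y σ ρ = n * R := by linarith
    have hnn : 0 ≤ ip Y σ ρ := by
      by_contra hcon
      apply hno
      have h1 : w₂ * z - z * w₂ ≠ 0 := hneg (by
        rw [ip_smul_right]
        linarith)
      have h2 := g4 _ _ _ _ gw₂ gz h1
      exact ⟨_, g2 _ _ h2 (by
        rw [LinearMap.add_apply]
        linarith)⟩
    have hn0 : 0 ≤ n := by
      by_contra hcon
      have h1 : (n : ℝ) < 0 := by exact_mod_cast not_le.1 hcon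
      rw [hn'] at hnn
      nlinarith
    obtain ⟨n', k, e1, e2, e3⟩ := cry Y S ρ (ρ + σ) x v gx gv hρ0 (by
      intro c hc
      apply nσ.1 (c - 1)
      refine LinearMap.ext fun a => ?_
      have h := LinearMap.congr_fun hc a
      simp only [LinearMap.add_apply, LinearMap.smul_apply, smul_eq_mul] at h ⊢
      linarith)
    rw [ip_add_left, ← hR, hn'] at e1
    have e4 : (n' : ℝ) = 2 + 2 * n := by
      have h1 : (n' : ℝ) * R = (2 + 2 * n) * R := by linarith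
      exact mul_right_cancel₀ hR0.ne' h1
    have e5 : n' = 2 + 2 * n := by exact_mod_cast e4
    rcases e3 with ⟨h1, -⟩ | ⟨h1, h2, h3⟩ | ⟨h1, -⟩
    · omega
    · have h4 : n' ≤ 3 := by nlinarith
      have h5 : n = 0 := by omega
      have h6 : n' = 2 := by omega
      have h7 : k = 1 := by
        rw [h6] at h3
        omega
      rw [h5, Int.cast_zero, zero_mul] at hn'
      refine ⟨hn', ?_⟩
      rw [h7, ip_add_left ρ σ (ρ + σ), ip_add_left ρ σ ρ, ip_add_right ρ ρ σ,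
        ip_add_right σ ρ σ, ip_comm ρ σ, hn', ← hR] at e2
      push_cast at e2
      linarith
    · omega
  obtain ⟨c1, c2⟩ := key β hβ nβρ hρβ b1
  obtain ⟨c3, c4⟩ := key (β + γ) hβγ nβγρ (by rw [← add_assoc]; exact hρβγ) b3
  obtain ⟨gu, pu⟩ := g1 _ _ hu
  obtain ⟨gw, pw⟩ := g1 _ _ hw
  have hβ0 : β ≠ 0 := hne _ pu
  obtain ⟨v, hv⟩ := hρβ
  obtain ⟨s, hs⟩ := hβγ
  obtain ⟨gv, pv⟩ := g1 _ _ hv
  obtain ⟨gs, ps⟩ := g1 _ _ hs
  obtain ⟨⟨n, hn⟩, -, -⟩ := int Y S (ρ + β) (β + γ) v s gv (hne _ pv) gs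
  have d1 : ip Y (ρ + β) (ρ + β) = 2 * R := by
    rw [ip_add_left ρ β (ρ + β), ip_add_right ρ ρ β, ip_add_right β ρ β, ip_comm ρ β, c1, c2,
      ← hR]
    ring
  rw [d1, ip_add_right (β + γ) ρ β, c3] at hn
  have d2 : ip Y (β + γ) β = n * R := by linarith
  have d3 := ip_cs (μ := β + γ) (ν := β) (by
    intro c hc
    apply nγβ.1 (c - 1)
    refine LinearMap.ext fun a => ?_
    have h := LinearMap.congr_fun hc a
    simp only [LinearMap.add_apply, LinearMap.smul_apply, smul_eq_mul] at h ⊢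
    linarith) hβ0
  rw [d2, c4, c2] at d3
  have d4 : n = 0 := by
    have h1 : ((n : ℝ)) ^ 2 < 1 := by
      by_contra hcon
      have h2 := not_lt.1 hcon
      nlinarith [mul_pos hR0 hR0]
    have h3 : n ^ 2 < 1 := by exact_mod_cast h1
    nlinarith [sq_nonneg n]
  rw [d4, Int.cast_zero, zero_mul, ip_add_left] at d2
  have d5 : ip Y γ β = -ip Y β β := by linarith
  have d6 := (int Y S β γ u w gu hβ0 gw).2.2 d5
  have d7 : (w * u - u * w) * u - u * (w * u - u * w) =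
      u * (u * w - w * u) - (u * w - w * u) * u := by noncomm_ring
  rw [d7]
  exact d6

end Pool.Agent.QSB.H42
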